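import Mathlib

/-!
# CR-C11: the mean square order implies square integrability
-/

set_option autoImplicit false

namespace Pool.Agent.Helper16.CR

open Filter Topology MeasureTheory Set

/-- one block -/
theorem l2_block {h : ℝ → ℝ} {a b ℓ I : ℝ} (ha : 2 ≤ a) (hℓ : 0 < ℓ) (hal : ℓ ≤ Real.log a)
    (hu : IntegrableOn (fun x => (h x * Real.log x) ^ 2 / x) (Ioc 2 b))
    (hI : ∫ x in Ioc 2 b, (h x * Real.log x) ^ 2 / x ≤ I) :
    IntegrableOn (fun x => h x ^ 2 / x) (Ioc a b) ∧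
      ∫ x in Ioc a b, h x ^ 2 / x ≤ I / ℓ ^ 2 := by
  have hsub : Ioc a b ⊆ Ioc 2 b := Ioc_subset_Ioc_left ha
  have hu' := hu.mono_set hsub
  have hlog : ∀ x ∈ Ioc a b, ℓ ≤ Real.log x := fun x hx =>
    hal.trans (Real.log_le_log (by linarith) hx.1.le)
  have hpt : ∀ x ∈ Ioc a b, h x ^ 2 / x = (Real.log x ^ 2)⁻¹ * ((h x * Real.log x) ^ 2 / x) := by
    intro x hx
    have h1 : Real.log x ≠ 0 := (hℓ.trans_le (hlog x hx)).ne'
    field_simp
  have hle : ∀ x ∈ Ioc a b, h x ^ 2 / x ≤ (ℓ ^ 2)⁻¹ * ((h x * Real.log x) ^ 2 / x) := by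
    intro x hx
    rw [hpt x hx]
    have hx0 : 0 < x := by have := hx.1; linarith
    refine mul_le_mul_of_nonneg_right ?_ (div_nonneg (sq_nonneg _) hx0.le)
    exact inv_anti₀ (by positivity) (pow_le_pow_left₀ hℓ.le (hlog x hx) 2)
  have hnn : ∀ x ∈ Ioc 2 b, 0 ≤ (h x * Real.log x) ^ 2 / x := by
    intro x hx
    have hx0 : 0 < x := by have := hx.1; linarith
    exact div_nonneg (sq_nonneg _) hx0.le
  have hint : IntegrableOn (fun x => h x ^ 2 / x) (Ioc a b) := by
    have hm : AEStronglyMeasurable (fun x => (Real.log x ^ 2)⁻¹ * ((h x * Real.log x) ^ 2 / x))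
        (volume.restrict (Ioc a b)) :=
      ((Real.measurable_log.pow_const 2).inv.aestronglyMeasurable).mul hu'.aestronglyMeasurable
    have hm' : AEStronglyMeasurable (fun x => h x ^ 2 / x) (volume.restrict (Ioc a b)) := by
      refine hm.congr ?_
      filter_upwards [ae_restrict_mem measurableSet_Ioc] with x hx
      exact (hpt x hx).symm
    refine Integrable.mono' (hu'.const_mul (ℓ ^ 2)⁻¹) hm' ?_
    filter_upwards [ae_restrict_mem measurableSet_Ioc] with x hx
    have hx0 : 0 < x := by have := hx.1; linarith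
    rw [Real.norm_eq_abs, abs_of_nonneg (div_nonneg (sq_nonneg _) hx0.le)]
    exact hle x hx
  refine ⟨hint, ?_⟩
  calc ∫ x in Ioc a b, h x ^ 2 / x
      ≤ ∫ x in Ioc a b, (ℓ ^ 2)⁻¹ * ((h x * Real.log x) ^ 2 / x) :=
        setIntegral_mono_on hint (hu'.const_mul _) measurableSet_Ioc hle
    _ = (ℓ ^ 2)⁻¹ * ∫ x in Ioc a b, (h x * Real.log x) ^ 2 / x := integral_const_mul _ _
    _ ≤ (ℓ ^ 2)⁻¹ * ∫ x in Ioc 2 b, (h x * Real.log x) ^ 2 / x := by
        refine mul_le_mul_of_nonneg_left ?_ (by positivity)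
        refine setIntegral_mono_set hu ?_ (Eventually.of_forall hsub)
        filter_upwards [ae_restrict_mem measurableSet_Ioc] with x hx
        exact hnn x hx
    _ ≤ (ℓ ^ 2)⁻¹ * I := mul_le_mul_of_nonneg_left hI (by positivity)
    _ = I / ℓ ^ 2 := by rw [div_eq_inv_mul]

/-- C11. the mean square order implies square integrability -/
theorem l2_of_cramer {h : ℝ → ℝ} (K : ℝ)
    (hK : ∀ X : ℝ, 2 ≤ X → IntegrableOn (fun x => (h x * Real.log x) ^ 2 / x) (Ioc 2 X) ∧
      ∫ x in Ioc 2 X, (h x * Real.log x) ^ 2 / x ≤ K * Real.log X) :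
    IntegrableOn (fun x => h x ^ 2 / x) (Ioi (2 : ℝ)) := by
  have hl2 : 0 < Real.log 2 := Real.log_pos one_lt_two
  obtain ⟨X, hX⟩ : ∃ X : ℕ → ℝ, ∀ n, X n = (2:ℝ) ^ (2 ^ n) := ⟨_, fun _ => rfl⟩
  have hX0 : X 0 = 2 := by rw [hX]; norm_num
  have hlogX : ∀ n, Real.log (X n) = 2 ^ n * Real.log 2 := by
    intro n
    rw [hX, Real.log_pow]
    push_cast
    ring
  have hmono : ∀ n, X n ≤ X (n + 1) := by
    intro n
    rw [hX, hX]
    exact pow_le_pow_right₀ one_le_two (Nat.pow_le_pow_right (by norm_num) n.le_succ)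
  have hX2 : ∀ n, 2 ≤ X n := by
    intro n
    induction n with
    | zero => rw [hX0]
    | succ n ih => exact ih.trans (hmono n)
  have hK0 : 0 ≤ K := by
    have h1 := (hK 2 le_rfl).2
    rw [Ioc_self, setIntegral_empty] at h1
    by_contra hneg
    push Not at hneg
    have := mul_neg_of_neg_of_pos hneg hl2
    linarith
  have key : ∀ n : ℕ, IntegrableOn (fun x => h x ^ 2 / x) (Ioc 2 (X n)) ∧
      ∫ x in Ioc 2 (X n), h x ^ 2 / x ≤ 4 * K / Real.log 2 * (1 - (1 / 2) ^ n) := by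
    intro n
    induction n with
    | zero =>
      rw [hX0, Ioc_self]
      refine ⟨integrableOn_empty, ?_⟩
      rw [setIntegral_empty]
      simp
    | succ n ih =>
      obtain ⟨i1, i2⟩ := ih
      obtain ⟨u1, u2⟩ := hK (X (n + 1)) (hX2 _)
      obtain ⟨j1, j2⟩ := l2_block (ℓ := 2 ^ n * Real.log 2) (hX2 n) (by positivity)
        (hlogX n).ge u1 u2
      have hun : Ioc 2 (X (n + 1)) = Ioc 2 (X n) ∪ Ioc (X n) (X (n + 1)) :=
        (Ioc_union_Ioc_eq_Ioc (hX2 n) (hmono n)).symm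
      rw [hun]
      refine ⟨i1.union j1, ?_⟩
      rw [setIntegral_union (Ioc_disjoint_Ioc_of_le le_rfl) measurableSet_Ioc i1 j1]
      have e1 : K * Real.log (X (n + 1)) / (2 ^ n * Real.log 2) ^ 2 =
          2 * K / Real.log 2 * (1 / 2) ^ n := by
        rw [hlogX, one_div, inv_pow, pow_succ]
        field_simp
      rw [e1] at j2
      have e2 : 4 * K / Real.log 2 * (1 - (1 / 2) ^ (n + 1)) =
          4 * K / Real.log 2 * (1 - (1 / 2) ^ n) + 2 * K / Real.log 2 * (1 / 2) ^ n := by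
        rw [pow_succ]
        ring
      rw [e2]
      exact add_le_add i2 j2
  have hXtop : Tendsto X atTop atTop := by
    refine tendsto_atTop_mono (f := fun n : ℕ => (n : ℝ)) ?_ tendsto_natCast_atTop_atTop
    intro n
    show (n : ℝ) ≤ X n
    rw [hX]
    have h1 : n < 2 ^ 2 ^ n := (Nat.lt_two_pow_self).trans Nat.lt_two_pow_self
    exact_mod_cast h1.le
  refine integrableOn_Ioi_of_intervalIntegral_norm_bounded (4 * K / Real.log 2) 2
    (fun n => (key n).1) hXtop (Eventually.of_forall fun n => ?_)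
  rw [intervalIntegral.integral_of_le (hX2 n)]
  have e3 : ∫ x in Ioc 2 (X n), ‖h x ^ 2 / x‖ = ∫ x in Ioc 2 (X n), h x ^ 2 / x := by
    refine setIntegral_congr_fun measurableSet_Ioc fun x hx => ?_
    have hx0 : 0 < x := by have := hx.1; linarith
    show ‖h x ^ 2 / x‖ = h x ^ 2 / x
    rw [Real.norm_eq_abs, abs_of_nonneg (div_nonneg (sq_nonneg _) hx0.le)]
  rw [e3]
  refine (key n).2.trans ?_
  have h5 : (0:ℝ) ≤ (1 / 2) ^ n := by positivity
  have h6 : 0 ≤ 4 * K / Real.log 2 := by positivity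
  nlinarith

end Pool.Agent.Helper16.CR
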