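import Pool.Agent.Helper29.MS.Branch

/-!
# CR-C7: the Laplace transform of `t f(t)`
-/

set_option autoImplicit false

namespace Pool.Agent.Helper16.CR

open Complex Filter Topology MeasureTheory Set Metric
open Pool.Agent.Helper13.Bsd Pool.Agent.Helper7.GW Pool.Agent.Helper58.BSD Pool.Agent.Helper29.MS

theorem hasDerivAt_Lap {f : ℝ → ℝ} (hf : Measurable f) (θ : ℝ) (h : ∀ x, θ < x → LapInt f x)
    {w0 : ℂ} (hw0 : θ < w0.re) :
    HasDerivAt (Lap f) (∫ t in Ioi (0 : ℝ), (f t : ℂ) * (cexp (-w0 * t) * (-t))) w0 := by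
  have hw0' : θ < w0.re := hw0
  set ε := (w0.re - θ) / 3 with hε
  have hε0 : 0 < ε := by rw [hε]; linarith
  have key := hasDerivAt_integral_of_dominated_loc_of_deriv_le (μ := volume.restrict (Ioi (0 : ℝ)))
    (F := fun (w : ℂ) (t : ℝ) => (f t : ℂ) * cexp (-w * t))
    (F' := fun (w : ℂ) (t : ℝ) => (f t : ℂ) * (cexp (-w * t) * (-t)))
    (x₀ := w0) (s := Metric.ball w0 ε)
    (bound := fun t => ε⁻¹ * ‖f t * Real.exp (-(w0.re - 2 * ε) * t)‖)
    (Metric.ball_mem_nhds _ hε0) ?_ ?_ ?_ ?_ ?_ ?_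
  · exact key.2
  · filter_upwards with w
    exact ((measurable_ofReal.comp hf).mul (by fun_prop)).aestronglyMeasurable
  · exact (h w0.re hw0').complex hf
  · exact ((measurable_ofReal.comp hf).mul (by fun_prop)).aestronglyMeasurable
  · rw [ae_restrict_iff' measurableSet_Ioi]
    filter_upwards with t ht w hw
    have ht' : 0 < t := ht
    have h1 : w0.re - ε ≤ w.re := by
      have h2 : ‖w - w0‖ < ε := by simpa [dist_eq_norm] using hw
      have h3 := (abs_le.mp ((abs_re_le_norm (w - w0)).trans h2.le)).1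
      simp only [sub_re] at h3
      linarith
    rw [norm_mul, norm_mul, norm_mul, norm_real, norm_exp, norm_neg, norm_real,
      Real.norm_eq_abs t, abs_of_pos ht', Real.norm_eq_abs (Real.exp _), Real.abs_exp]
    have h4 : (-w * (t : ℂ)).re = -w.re * t := by simp
    rw [h4]
    have h5 : Real.exp (-w.re * t) * t ≤ ε⁻¹ * Real.exp (-(w0.re - 2 * ε) * t) := by
      have h6 : ε * t ≤ Real.exp (ε * t) := by
        have := Real.add_one_le_exp (ε * t)
        linarith
      have h7 : Real.exp (-w.re * t) * Real.exp (ε * t) ≤ Real.exp (-(w0.re - 2 * ε) * t) := by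
        rw [← Real.exp_add, Real.exp_le_exp]
        nlinarith
      rw [inv_mul_eq_div, le_div_iff₀ hε0]
      calc Real.exp (-w.re * t) * t * ε = Real.exp (-w.re * t) * (ε * t) := by ring
        _ ≤ Real.exp (-w.re * t) * Real.exp (ε * t) := by gcongr
        _ ≤ _ := h7
    calc ‖f t‖ * (Real.exp (-w.re * t) * t)
        ≤ ‖f t‖ * (ε⁻¹ * Real.exp (-(w0.re - 2 * ε) * t)) := by gcongr
      _ = _ := by ring
  · exact ((h (w0.re - 2 * ε) (by rw [hε]; linarith)).norm).const_mul _
  · filter_upwards with t w _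
    have h1 : HasDerivAt (fun w : ℂ => -w * (t : ℂ)) (-(t : ℂ)) w := by
      have := ((hasDerivAt_id w).neg).mul_const (t : ℂ)
      simpa using this
    exact (h1.cexp).const_mul _

/-- C7. -/
theorem lap_mul_t {f : ℝ → ℝ} {A a : ℝ} (hf : Grow f A a) : Grow (fun t => t * f t) A (a + 1) ∧
    ∀ w : ℂ, a + 1 < w.re → Lap (fun t => t * f t) w = -deriv (Lap f) w := by
  constructor
  · refine ⟨measurable_id.mul hf.meas, hf.hA, by have := hf.ha; linarith, fun t ht => ?_⟩
    rw [abs_mul, abs_of_pos ht]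
    have h1 : t ≤ Real.exp t := by have := Real.add_one_le_exp t; linarith
    calc t * |f t| ≤ Real.exp t * (A * Real.exp (a * t)) :=
          mul_le_mul h1 (hf.bd t ht) (abs_nonneg _) (Real.exp_pos _).le
      _ = A * Real.exp ((a + 1) * t) := by
          rw [show (a + 1) * t = t + a * t by ring, Real.exp_add]
          ring
  · intro w hw
    rw [(hasDerivAt_Lap hf.meas a (fun x hx => lapInt_of_grow hf x hx)
      (by linarith : a < w.re)).deriv, Lap, ← integral_neg]
    refine integral_congr_ae (Eventually.of_forall fun t => ?_)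
    show ((t * f t : ℝ) : ℂ) * cexp (-w * t) = -((f t : ℂ) * (cexp (-w * t) * (-t)))
    push_cast
    ring

end Pool.Agent.Helper16.CR
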