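import Mathlib

/-!
From an eventual logarithmic bound to one for every `X ≥ 2`.
-/

open MeasureTheory Set Filter

namespace Pool.Agent.Helper16.CR

theorem bounded_of_limit {q : ℝ → ℝ} (hq : ∀ x, 2 < x → 0 ≤ q x)
    (hint : ∀ X : ℝ, 2 ≤ X → IntegrableOn q (Ioc 2 X)) (K0 : ℝ)
    (h : ∀ᶠ X : ℝ in atTop, ∫ x in Ioc 2 X, q x ≤ K0 * Real.log X) :
    ∃ K : ℝ, ∀ X : ℝ, 2 ≤ X →
      IntegrableOn q (Ioc 2 X) ∧ ∫ x in Ioc 2 X, q x ≤ K * Real.log X := by
  obtain ⟨A, hA⟩ := Filter.eventually_atTop.mp h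
  obtain ⟨B, hBdef⟩ : ∃ B : ℝ, B = max A 2 := ⟨_, rfl⟩
  have hB2 : (2 : ℝ) ≤ B := by rw [hBdef]; exact le_max_right _ _
  have hBA : A ≤ B := by rw [hBdef]; exact le_max_left _ _
  have hl2 : 0 < Real.log 2 := Real.log_pos (by norm_num)
  obtain ⟨I, hIdef⟩ : ∃ I : ℝ, I = ∫ x in Ioc 2 B, q x := ⟨_, rfl⟩
  have hI0 : 0 ≤ I := by
    rw [hIdef]
    exact setIntegral_nonneg measurableSet_Ioc (fun x hx => hq x hx.1)
  refine ⟨max K0 (I / Real.log 2), fun X hX => ⟨hint X hX, ?_⟩⟩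
  have hlX : Real.log 2 ≤ Real.log X := Real.log_le_log (by norm_num) hX
  have hlX0 : 0 < Real.log X := lt_of_lt_of_le hl2 hlX
  rcases le_total B X with hBX | hXB
  · calc ∫ x in Ioc 2 X, q x ≤ K0 * Real.log X := hA X (le_trans hBA hBX)
      _ ≤ max K0 (I / Real.log 2) * Real.log X :=
          mul_le_mul_of_nonneg_right (le_max_left _ _) hlX0.le
  · have h1 : ∫ x in Ioc 2 X, q x ≤ I := by
      rw [hIdef]
      refine setIntegral_mono_set (hint B hB2) ?_ ?_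
      · exact (ae_restrict_iff' measurableSet_Ioc).mpr
          (Filter.Eventually.of_forall fun x hx => hq x hx.1)
      · exact (Ioc_subset_Ioc_right hXB).eventuallyLE
    calc ∫ x in Ioc 2 X, q x ≤ I := h1
      _ = I / Real.log 2 * Real.log 2 := by field_simp
      _ ≤ I / Real.log 2 * Real.log X :=
          mul_le_mul_of_nonneg_left hlX (div_nonneg hI0 hl2.le)
      _ ≤ max K0 (I / Real.log 2) * Real.log X :=
          mul_le_mul_of_nonneg_right (le_max_right _ _) hlX0.le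

end Pool.Agent.Helper16.CR
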