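import Mathlib

/-!
# CR-K2a: the Poisson kernel on a window
-/

set_option autoImplicit false

namespace Pool.Agent.Helper16.CR

open Complex Filter Topology MeasureTheory Set Metric

theorem poisson_norm1 (σ γ τ : ℝ) :
    ‖(σ : ℂ) + (τ : ℂ) * I - (γ : ℂ) * I‖ ^ 2 = σ ^ 2 + (τ - γ) ^ 2 := by
  rw [← normSq_eq_norm_sq, normSq_apply]
  simp
  ring

theorem poisson_norm2 (σ τ : ℝ) : ‖(σ : ℂ) + (τ : ℂ) * I‖ ^ 2 = σ ^ 2 + τ ^ 2 := by
  rw [← normSq_eq_norm_sq, normSq_apply]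
  simp
  ring

/-- K2a. Poisson kernel on a window (Mathlib only) -/
theorem poisson_window (γ ε : ℝ) (hε : 0 < ε) (hεγ : ε < |γ|) :
    Tendsto (fun σ : ℝ => σ * ∫ τ in Icc (γ - ε) (γ + ε),
      (‖(σ : ℂ) + (τ : ℂ) * I - (γ : ℂ) * I‖ ^ 2)⁻¹ * (‖(σ : ℂ) + (τ : ℂ) * I‖ ^ 2)⁻¹) (𝓝[>] 0)
      (𝓝 (Real.pi / γ ^ 2)) := by
  have hδ : 0 < |γ| - ε := by linarith
  have hγ : γ ≠ 0 := by
    intro h
    rw [h, abs_zero] at hεγ
    linarith
  obtain ⟨F, hF⟩ : ∃ F : ℝ → ℝ → ℝ, ∀ σ u, F σ u = (Ioc (-(ε / σ)) (ε / σ)).indicator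
      (fun u : ℝ => (1 + u ^ 2)⁻¹ * (σ ^ 2 + (γ + σ * u) ^ 2)⁻¹) u := ⟨_, fun _ _ => rfl⟩
  have hmain : Tendsto (fun σ : ℝ => ∫ u, F σ u) (𝓝[>] 0)
      (𝓝 (∫ u : ℝ, (1 + u ^ 2)⁻¹ * (γ ^ 2)⁻¹)) := by
    refine tendsto_integral_filter_of_dominated_convergence
      (fun u : ℝ => (1 + u ^ 2)⁻¹ * ((|γ| - ε) ^ 2)⁻¹) ?_ ?_ ?_ ?_
    · refine Eventually.of_forall fun σ => ?_
      have h1 : F σ = (Ioc (-(ε / σ)) (ε / σ)).indicator
          (fun u : ℝ => (1 + u ^ 2)⁻¹ * (σ ^ 2 + (γ + σ * u) ^ 2)⁻¹) := by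
        funext u
        exact hF σ u
      rw [h1]
      refine (Measurable.indicator ?_ measurableSet_Ioc).aestronglyMeasurable
      fun_prop
    · filter_upwards [self_mem_nhdsWithin] with σ hσ
      have hσ' : 0 < σ := hσ
      refine Eventually.of_forall fun u => ?_
      rw [hF]
      have hnn : 0 ≤ (1 + u ^ 2)⁻¹ * ((|γ| - ε) ^ 2)⁻¹ := by positivity
      by_cases hu : u ∈ Ioc (-(ε / σ)) (ε / σ)
      · rw [indicator_of_mem hu]
        have h1 : |σ * u| ≤ ε := by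
          rw [abs_mul, abs_of_pos hσ']
          have h2 : |u| ≤ ε / σ := abs_le.2 ⟨hu.1.le, hu.2⟩
          calc σ * |u| ≤ σ * (ε / σ) := mul_le_mul_of_nonneg_left h2 hσ'.le
            _ = ε := by field_simp
        have h2 : |γ| - ε ≤ |γ + σ * u| := by
          have h3 : |γ| ≤ |γ + σ * u| + |σ * u| := by
            have h4 := abs_sub (γ + σ * u) (σ * u)
            rwa [add_sub_cancel_right] at h4
          linarith
        have h3 : (|γ| - ε) ^ 2 ≤ σ ^ 2 + (γ + σ * u) ^ 2 := by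
          have h4 := pow_le_pow_left₀ hδ.le h2 2
          rw [sq_abs] at h4
          nlinarith [sq_nonneg σ]
        have h4 : (σ ^ 2 + (γ + σ * u) ^ 2)⁻¹ ≤ ((|γ| - ε) ^ 2)⁻¹ := inv_anti₀ (by positivity) h3
        have h5 : 0 ≤ (1 + u ^ 2)⁻¹ * (σ ^ 2 + (γ + σ * u) ^ 2)⁻¹ := by positivity
        rw [Real.norm_eq_abs, abs_of_nonneg h5]
        exact mul_le_mul_of_nonneg_left h4 (by positivity)
      · rw [indicator_of_notMem hu, norm_zero]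
        exact hnn
    · exact (integrable_inv_one_add_sq).mul_const _
    · refine Eventually.of_forall fun u => ?_
      have h1 : Tendsto (fun σ : ℝ => (1 + u ^ 2)⁻¹ * (σ ^ 2 + (γ + σ * u) ^ 2)⁻¹) (𝓝[>] 0)
          (𝓝 ((1 + u ^ 2)⁻¹ * (γ ^ 2)⁻¹)) := by
        have hc : ContinuousAt (fun σ : ℝ => (1 + u ^ 2)⁻¹ * (σ ^ 2 + (γ + σ * u) ^ 2)⁻¹) 0 := by
          refine ContinuousAt.mul continuousAt_const (ContinuousAt.inv₀ (by fun_prop) ?_)
          show (0:ℝ) ^ 2 + (γ + 0 * u) ^ 2 ≠ 0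
          rw [zero_mul, add_zero]
          positivity
        have h2 := hc.tendsto
        simp only [ne_eq, OfNat.ofNat_ne_zero, not_false_eq_true, zero_pow, zero_mul, add_zero,
          zero_add] at h2
        exact h2.mono_left nhdsWithin_le_nhds
      refine h1.congr' ?_
      have h3 : ∀ᶠ σ : ℝ in 𝓝[>] 0, σ < ε / (|u| + 1) :=
        nhdsWithin_le_nhds (Iio_mem_nhds (by positivity))
      filter_upwards [self_mem_nhdsWithin, h3] with σ hσ hσ3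
      have hσ' : 0 < σ := hσ
      have h4 : |u| < ε / σ := by
        rw [lt_div_iff₀ (by positivity)] at hσ3
        rw [lt_div_iff₀ hσ']
        nlinarith [abs_nonneg u]
      rw [hF, indicator_of_mem]
      have h5 := abs_lt.1 h4
      exact ⟨h5.1, h5.2.le⟩
  have hlim : ∫ u : ℝ, (1 + u ^ 2)⁻¹ * (γ ^ 2)⁻¹ = Real.pi / γ ^ 2 := by
    rw [integral_mul_const, integral_univ_inv_one_add_sq, div_eq_mul_inv]
  rw [hlim] at hmain
  refine hmain.congr' ?_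
  filter_upwards [self_mem_nhdsWithin] with σ hσ
  have hσ' : 0 < σ := hσ
  have hfun : F σ = (Ioc (-(ε / σ)) (ε / σ)).indicator
      (fun u : ℝ => (1 + u ^ 2)⁻¹ * (σ ^ 2 + (γ + σ * u) ^ 2)⁻¹) := by
    funext u
    exact hF σ u
  rw [hfun, integral_indicator measurableSet_Ioc,
    ← intervalIntegral.integral_of_le (by have : 0 < ε / σ := by positivity
                                          linarith),
    integral_Icc_eq_integral_Ioc, ← intervalIntegral.integral_of_le (by linarith)]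
  have hsub := intervalIntegral.mul_integral_comp_add_mul (a := -(ε / σ)) (b := ε / σ)
    (f := fun τ : ℝ => (‖(σ : ℂ) + (τ : ℂ) * I - (γ : ℂ) * I‖ ^ 2)⁻¹ *
      (‖(σ : ℂ) + (τ : ℂ) * I‖ ^ 2)⁻¹) σ γ
  have e1 : γ + σ * -(ε / σ) = γ - ε := by field_simp; ring
  have e2 : γ + σ * (ε / σ) = γ + ε := by field_simp
  rw [e1, e2] at hsub
  rw [← hsub, ← mul_assoc, ← intervalIntegral.integral_const_mul]
  refine intervalIntegral.integral_congr fun u _ => ?_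
  show (1 + u ^ 2)⁻¹ * (σ ^ 2 + (γ + σ * u) ^ 2)⁻¹ = σ * σ *
    ((‖(σ : ℂ) + ((γ + σ * u : ℝ) : ℂ) * I - (γ : ℂ) * I‖ ^ 2)⁻¹ *
      (‖(σ : ℂ) + ((γ + σ * u : ℝ) : ℂ) * I‖ ^ 2)⁻¹)
  rw [poisson_norm1, poisson_norm2, add_sub_cancel_left]
  have h6 : σ ^ 2 + (σ * u) ^ 2 = σ * σ * (1 + u ^ 2) := by ring
  rw [h6, mul_inv]
  have h7 : σ * σ ≠ 0 := by positivity
  have h8 : σ * σ * ((σ * σ)⁻¹ * (1 + u ^ 2)⁻¹ * (σ ^ 2 + (γ + σ * u) ^ 2)⁻¹) =
      (σ * σ * (σ * σ)⁻¹) * ((1 + u ^ 2)⁻¹ * (σ ^ 2 + (γ + σ * u) ^ 2)⁻¹) := by ring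
  rw [h8, mul_inv_cancel₀ h7, one_mul]

end Pool.Agent.Helper16.CR
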